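import Pool.Agent.N510.CT.FF

set_option autoImplicit false

/-!
# Groups of type FP and FF and boundary matrices of norm `3 / √2`

A torsion-free group with a free resolution one of whose boundary matrices has operator norm at most
`3 / √2` (the bound included) is of type FF. For every larger bound all boundary matrices can be
replaced by matrices with coefficients `0`, `1`, `-1` whose support pattern has such a norm.
-/

namespace Pool.Agent.Results.MP_d19827_al.CriticalNorm

open TH57.FF TH57.Thr

/-- All coefficients of `A` are `0`, `1` or `-1`, and the support pattern of `A`, that is, the matrix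
of the absolute values, has norm at most `c` on `ℓ²` (so `A` has norm at most `c` as well). -/
def Thin {G : Type} [Group G] {m n : ℕ} (A : Matrix (Fin m) (Fin n) (MonoidAlgebra ℤ G))
    (c : ℝ) : Prop :=
  (∀ i j g, (A i j).coeff g = 0 ∨ (A i j).coeff g = 1 ∨ (A i j).coeff g = -1) ∧
    NormLE (TH6.PF.pat A) c

/-- `G` is torsion-free. -/
def TorsionFree (G : Type) [Group G] : Prop := ∀ g : G, IsOfFinOrder g → g = 1

/-- `Bd G n A` (from `Pool.Agent.TH57.FF.BdDefs`): `A` is the matrix of `F_{n+1} → F_n` in an exact
sequence `F_{n+1} → F_n → ... → F_0 → ℤ → 0` of `ℤG`-modules in which all `F_i` are free with finite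
bases; for instance such sequences exist for all `n` if `G` is of type FP.
1. If `G` is torsion-free and the matrix of `F_{n+1} → F_n` has operator norm at most `3 / √2` for
   some `n`, then `ℤ` has a resolution of length at most `n + 3` by finitely generated free modules.
2. Let `c > 3 / √2`. For every group `G` with an exact sequence as above there is one (with the same
   `n`) in which the last matrix has coefficients `0`, `1`, `-1` and a support pattern of norm at
   most `c`.
3. So for `c > 3 / √2`, every class `𝒞` of groups and all `n`, `N` the following are equivalent: all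
   torsion-free groups in `𝒞` with an exact sequence as above have a free resolution of length at
   most `N`; the same for those with such a last matrix. -/
theorem result :
    (∀ (G : Type) [Group G], TorsionFree G → ∀ (n m k : ℕ)
      (A : Matrix (Fin m) (Fin k) (MonoidAlgebra ℤ G)), Bd G n A →
      ∀ c : ℝ, 0 < c → c ^ 2 ≤ 9 / 2 → NormLE A c → FFle G (n + 3)) ∧
    (∀ (G : Type) [Group G] (n m k : ℕ) (A : Matrix (Fin m) (Fin k) (MonoidAlgebra ℤ G)),
      Bd G n A → ∀ c : ℝ, 9 / 2 < c ^ 2 →
      ∃ (m' k' : ℕ) (A' : Matrix (Fin m') (Fin k') (MonoidAlgebra ℤ G)),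
        Bd G n A' ∧ Thin A' c) ∧
    (∀ (𝒞 : ∀ (G : Type) [Group G], Prop) (n N : ℕ) (c : ℝ), 9 / 2 < c ^ 2 →
      ((∀ (G : Type) [Group G], 𝒞 G → TorsionFree G →
          (∃ (m k : ℕ) (A : Matrix (Fin m) (Fin k) (MonoidAlgebra ℤ G)), Bd G n A) → FFle G N) ↔
        (∀ (G : Type) [Group G], 𝒞 G → TorsionFree G →
          (∃ (m k : ℕ) (A : Matrix (Fin m) (Fin k) (MonoidAlgebra ℤ G)),
            Bd G n A ∧ Thin A c) → FFle G N))) := by
  refine ⟨?_, fun G _ n m k A hA c hc => Pool.Agent.N510.CT.sBd_red n A hA c hc, ?_⟩
  · intro G _ htf n m k A hA c hc0 hc hnorm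
    exact Pool.Agent.N510.CT.small_boundary2 (fun g k hk h =>
      htf g (isOfFinOrder_iff_pow_eq_one.2 ⟨k, hk, h⟩)) n A hA c hc0 hc hnorm
  · intro 𝒞 n N c hc
    constructor
    · intro h G _ h1 h2 ⟨m, k, A, h3, _⟩
      exact h G h1 h2 ⟨m, k, A, h3⟩
    · intro h G _ h1 h2 ⟨m, k, A, h3⟩
      obtain ⟨m', k', A', h4, h5⟩ := Pool.Agent.N510.CT.sBd_red n A h3 c hc
      exact h G h1 h2 ⟨m', k', A', h4, h5⟩

end Pool.Agent.Results.MP_d19827_al.CriticalNorm
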